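import Pool.Agent.H96RS2.Fn

/-!
# The approximation stage
-/

open Set Complex Cardinal

namespace Pool.Agent.Helper77.PE

open Pool.Agent.H96RS Pool.Agent.H96RS2

/-- a countable partial exponential map on the span of `S0` which is `ε`-close to `exp` on `S0` -/
def Base (S0 : Set ℂ) (ε : ℝ) (ω : ℂ) (τ : ℝ) (G : Submodule ℚ (ℂ × ℂ)) : Prop :=
  Good ω τ G ∧ #G ≤ ℵ₀ ∧ (∀ v ∈ G, v.1 ∈ Submodule.span ℚ S0) ∧
    ∀ s ∈ S0, ∃ v ∈ G, v.1 = s ∧ ‖v.2 - v.1‖ ≤ ε

theorem exists_const {S : Set ℂ} {f : ℂ} (hf : f ∈ Submodule.span ℚ S) :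
    ∃ C : ℝ, 0 ≤ C ∧ ∀ (G : Submodule ℚ (ℂ × ℂ)) (ε : ℝ),
      (∀ s ∈ S, ∃ v ∈ G, v.1 = s ∧ ‖v.2 - v.1‖ ≤ ε) →
      ∃ v ∈ G, v.1 = f ∧ ‖v.2 - v.1‖ ≤ C * ε := by
  induction hf using Submodule.span_induction with
  | mem a ha =>
    refine ⟨1, zero_le_one, fun G ε h => ?_⟩
    rw [one_mul]
    exact h a ha
  | zero => exact ⟨0, le_rfl, fun G ε _ => ⟨0, G.zero_mem, rfl, by simp⟩⟩
  | add a b _ _ iha ihb =>
    obtain ⟨C1, h1, h1'⟩ := iha
    obtain ⟨C2, h2, h2'⟩ := ihb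
    refine ⟨C1 + C2, by positivity, fun G ε h => ?_⟩
    obtain ⟨v, hv, rfl, hv2⟩ := h1' G ε h
    obtain ⟨w, hw, rfl, hw2⟩ := h2' G ε h
    refine ⟨v + w, G.add_mem hv hw, rfl, ?_⟩
    have h3 : (v + w).2 - (v + w).1 = (v.2 - v.1) + (w.2 - w.1) := by
      rw [Prod.snd_add, Prod.fst_add]; ring
    rw [h3, add_mul]
    exact (norm_add_le _ _).trans (add_le_add hv2 hw2)
  | smul q a _ iha =>
    obtain ⟨C1, h1, h1'⟩ := iha
    refine ⟨|(q : ℝ)| * C1, by positivity, fun G ε h => ?_⟩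
    obtain ⟨v, hv, rfl, hv2⟩ := h1' G ε h
    refine ⟨q • v, G.smul_mem q hv, rfl, ?_⟩
    have h3 : (q • v).2 - (q • v).1 = (q : ℂ) * (v.2 - v.1) := by
      rw [Prod.smul_snd, Prod.smul_fst, Rat.smul_def, Rat.smul_def]; ring
    rw [h3, norm_mul, mul_assoc]
    have h4 : ‖(q : ℂ)‖ = |(q : ℝ)| := by
      rw [← Complex.ofReal_ratCast, Complex.norm_real, Real.norm_eq_abs]
    rw [h4]
    gcongr

theorem gen_near {F : Set ℂ} (hF : #F < 𝔠) (f u : ℂ) (hu : u = 1 ∨ u = I) {δ : ℝ} (hδ : 0 < δ)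
    (hδ1 : δ ≤ 1) : ∃ t ∈ Ioo (0 : ℝ) 1, exp (f + (δ * t : ℝ) * u) ∉ F := by
  refine gen hF (fun t => exp (f + (δ * t : ℝ) * u)) ?_
  intro s hs t ht hst
  have hpi := Real.pi_gt_three
  have h0 : exp ((δ * s : ℝ) * u) = exp ((δ * t : ℝ) * u) := by
    have h1 : exp f * exp ((δ * s : ℝ) * u) = exp f * exp ((δ * t : ℝ) * u) := by
      rw [← exp_add, ← exp_add]; exact hst
    exact mul_left_cancel₀ (exp_ne_zero f) h1
  have hb : ∀ x ∈ Ioo (0 : ℝ) 1, -Real.pi < (((δ * x : ℝ) : ℂ) * u).im ∧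
      (((δ * x : ℝ) : ℂ) * u).im ≤ Real.pi := by
    intro x hx
    have h1 : 0 < δ * x := mul_pos hδ hx.1
    have h2 : δ * x ≤ 1 := by nlinarith [hx.1, hx.2]
    rcases hu with rfl | rfl
    · simp only [mul_one, Complex.ofReal_im]
      constructor <;> linarith
    · simp only [Complex.mul_im, Complex.ofReal_re, Complex.I_im, mul_one, Complex.ofReal_im,
        Complex.I_re, mul_zero, add_zero]
      constructor <;> linarith
  have h1 : Complex.log (exp ((δ * s : ℝ) * u)) = Complex.log (exp ((δ * t : ℝ) * u)) :=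
    congrArg _ h0
  rw [Complex.log_exp (hb s hs).1 (hb s hs).2, Complex.log_exp (hb t ht).1 (hb t ht).2] at h1
  have hu0 : u ≠ 0 := by rcases hu with rfl | rfl <;> simp
  have h2 := mul_right_cancel₀ hu0 h1
  have h3 : δ * s = δ * t := by exact_mod_cast h2
  exact mul_left_cancel₀ hδ.ne' h3

theorem approx {S0 : Set ℂ} (F : Finset ℂ) (hF : ∀ f ∈ F, f.im = 0 ∨ f.re = 0) :
    ∀ ε > 0, ∃ δ > 0, ∀ (ω : ℂ) (τ : ℝ) (G0 : Submodule ℚ (ℂ × ℂ)), Base S0 δ ω τ G0 →
      ∃ G, G0 ≤ G ∧ Base (S0 ∪ F) ε ω τ G := by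
  classical
  induction F using Finset.induction_on with
  | empty =>
    intro ε hε
    refine ⟨ε, hε, fun ω τ G0 h => ⟨G0, le_rfl, ?_⟩⟩
    rw [Finset.coe_empty, union_empty]
    exact h
  | insert f F hfF ih =>
    intro ε hε
    have ih' := ih fun g hg => hF g (Finset.mem_insert_of_mem hg)
    have hsub : S0 ∪ (F : Set ℂ) ⊆ S0 ∪ ((insert f F : Finset ℂ) : Set ℂ) := by
      rw [Finset.coe_insert]
      exact union_subset_union_right _ (subset_insert _ _)
    have hmem : ∀ s ∈ S0 ∪ ((insert f F : Finset ℂ) : Set ℂ), s = f ∨ s ∈ S0 ∪ (F : Set ℂ) := by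
      rintro s (hs | hs)
      · exact Or.inr (Or.inl hs)
      · rw [Finset.coe_insert] at hs
        rcases hs with rfl | hs
        · exact Or.inl rfl
        · exact Or.inr (Or.inr hs)
    by_cases hf : f ∈ Submodule.span ℚ (S0 ∪ (F : Set ℂ))
    · obtain ⟨C, hC, hC'⟩ := exists_const hf
      have hε' : 0 < ε / (1 + C) := by positivity
      obtain ⟨δ, hδ, hδ'⟩ := ih' (ε / (1 + C)) hε'
      refine ⟨δ, hδ, fun ω τ G0 h => ?_⟩
      obtain ⟨G, h2, h3, h4, h5, h6⟩ := hδ' ω τ G0 h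
      have hle : ε / (1 + C) ≤ ε := div_le_self hε.le (by linarith)
      have hCε : C * (ε / (1 + C)) ≤ ε := by
        rw [mul_div_assoc', div_le_iff₀ (by positivity)]
        nlinarith
      refine ⟨G, h2, h3, h4, fun v hv => Submodule.span_mono hsub (h5 v hv), ?_⟩
      intro s hs
      rcases hmem s hs with rfl | hs
      · obtain ⟨v, hv, hv1, hv2⟩ := hC' G _ h6
        exact ⟨v, hv, hv1, hv2.trans hCε⟩
      · obtain ⟨v, hv, hv1, hv2⟩ := h6 s hs
        exact ⟨v, hv, hv1, hv2.trans hle⟩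
    · obtain ⟨δ, hδ, hδ'⟩ := ih' ε hε
      refine ⟨δ, hδ, fun ω τ G0 h => ?_⟩
      obtain ⟨G, h2, h3, h4, h5, h6⟩ := hδ' ω τ G0 h
      have hc : #(Mt.closure (Nums G)) < 𝔠 :=
        cl_nums_card (h4.trans_lt Cardinal.aleph0_lt_continuum)
      obtain ⟨u, hu, e, hcf, hcu⟩ : ∃ u : ℂ, (u = 1 ∨ u = I) ∧ ∃ e : ℚ,
          starRingEnd ℂ f = e • f ∧ starRingEnd ℂ u = e • u := by
        rcases hF f (Finset.mem_insert_self f F) with h | h
        · refine ⟨1, Or.inl rfl, 1, ?_, ?_⟩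
          · rw [one_smul]; exact Complex.conj_eq_iff_im.2 h
          · rw [one_smul, map_one]
        · refine ⟨I, Or.inr rfl, -1, ?_, ?_⟩
          · rw [neg_one_smul]; apply Complex.ext <;> simp [h]
          · rw [neg_one_smul]; apply Complex.ext <;> simp
      obtain ⟨t, ht, htF⟩ := gen_near hc f u hu (δ := min ε 1) (by positivity) (min_le_right _ _)
      set l : ℂ := f + (min ε 1 * t : ℝ) * u with hl
      have hcl : starRingEnd ℂ l = e • l := by
        rw [hl, map_add, map_mul, hcf, hcu, Complex.conj_ofReal, smul_add, mul_smul_comm]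
      have hext := h3.ext (nums_sub G) (g := f) (l := l) (e := e) hcf hcl
        (fun v hv he => hf (he ▸ h5 v hv))
        (fun v hv he => htF (by rw [← he]; exact nums_sub G ⟨v, hv, Or.inr rfl⟩)) (Or.inr htF)
      refine ⟨_, h2.trans le_sup_left, hext, ?_, ?_, ?_⟩
      · exact (sup_span_card _ _).trans (max_le h4 le_rfl)
      · intro v hv
        obtain ⟨w, hw, q, rfl⟩ := mem_dec hv
        refine Submodule.add_mem _ (Submodule.span_mono hsub (h5 w hw)) (Submodule.smul_mem _ _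
          (Submodule.subset_span (Or.inr ?_)))
        rw [Finset.coe_insert]; exact Or.inl rfl
      · intro s hs
        rcases hmem s hs with rfl | hs
        · refine ⟨(s, l), mem_span_w _ _, rfl, ?_⟩
          have h7 : l - s = (min ε 1 * t : ℝ) * u := by rw [hl]; ring
          show ‖l - s‖ ≤ ε
          rw [h7, norm_mul, Complex.norm_real, Real.norm_eq_abs,
            abs_of_pos (mul_pos (by positivity) ht.1)]
          have hu1 : ‖u‖ = 1 := by rcases hu with rfl | rfl <;> simp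
          rw [hu1, mul_one]
          calc min ε 1 * t ≤ min ε 1 * 1 := by
                gcongr
                exact ht.2.le
            _ ≤ ε := by rw [mul_one]; exact min_le_left _ _
        · obtain ⟨v, hv, hv1, hv2⟩ := h6 s hs
          exact ⟨v, (le_sup_left : G ≤ _) hv, hv1, hv2⟩

theorem exists_delta (F : Finset ℂ) {ε : ℝ} (hε : 0 < ε) :
    ∃ δ > 0, ∀ z ∈ F, ∀ w : ℂ, ‖w - z‖ ≤ δ → ‖exp w - exp z‖ < ε := by
  classical
  induction F using Finset.induction_on with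
  | empty => exact ⟨1, one_pos, by simp⟩
  | insert a F _ ih =>
    obtain ⟨δ, hδ, h⟩ := ih
    obtain ⟨δ', hδ', h'⟩ := Metric.continuousAt_iff.1 (Complex.continuous_exp.continuousAt (x := a))
      ε hε
    refine ⟨min δ (δ' / 2), by positivity, ?_⟩
    intro z hz w hw
    rcases Finset.mem_insert.1 hz with rfl | hz
    · have h1 : dist w z < δ' := by
        rw [dist_eq_norm]
        exact (hw.trans (min_le_right _ _)).trans_lt (by linarith)
      have h2 := h' h1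
      rwa [dist_eq_norm] at h2
    · exact h z hz w (hw.trans (min_le_left _ _))

end Pool.Agent.Helper77.PE
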