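import Pool.Agent.H96RS2.Fn

/-!
# From a countable partial exponential map to an exponential map of the complex numbers

(after helper96's `H96RS2.exists_total` and `H96RS2.exists_exp`, with the values on the base kept)
-/

open Set Complex Cardinal

namespace Pool.Agent.Helper77.PE

open Pool.Agent.H96RS Pool.Agent.H96RS2

/-- The field generated over the rationals by the numbers `z i` and their images `w i`. -/
noncomputable abbrev Gen {n : ℕ} (z w : Fin n → ℂ) : IntermediateField ℚ ℂ :=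
  IntermediateField.adjoin ℚ (Set.range z ∪ Set.range w)

/-- `E` is an exponential map of the field of complex numbers with the real number `p` in the
place of `π`: a homomorphism from the additive group onto the multiplicative group, with kernel
exactly `2 p i ℤ`, with the usual roots of unity, commuting with complex conjugation, for which
all instances of Schanuel's conjecture hold, except that the bound `n` is replaced by `n - 1` when
both `1` and `2 p i` lie in the rational span of the given numbers. -/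
structure RestrictedExp (p : ℝ) (E : ℂ → ℂ) : Prop where
  add : ∀ z w : ℂ, E (z + w) = E z * E w
  onto : ∀ y : ℂ, y ≠ 0 → ∃ z : ℂ, E z = y
  kernel : ∀ z : ℂ, E z = 1 ↔ ∃ k : ℤ, z = k * (2 * p * Complex.I)
  torsion : ∀ q : ℚ, E (q * (2 * p * Complex.I)) = Complex.exp (2 * Real.pi * Complex.I * q)
  conj : ∀ z : ℂ, E (starRingEnd ℂ z) = starRingEnd ℂ (E z)
  schanuel_pred : ∀ (n : ℕ) (z : Fin n → ℂ), LinearIndependent ℚ z →
    (n : Cardinal.{0}) ≤ Algebra.trdeg ℚ (Gen z (fun i => E (z i))) + 1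
  schanuel : ∀ (n : ℕ) (z : Fin n → ℂ), LinearIndependent ℚ z →
    ¬ ((1 : ℂ) ∈ Submodule.span ℚ (Set.range z) ∧
        (2 * p * Complex.I : ℂ) ∈ Submodule.span ℚ (Set.range z)) →
    (n : Cardinal.{0}) ≤ Algebra.trdeg ℚ (Gen z (fun i => E (z i)))

theorem exists_total_ge {ω : ℂ} {τ : ℝ} {G0 : Submodule ℚ (ℂ × ℂ)} (h0 : Good ω τ G0)
    (hc0 : #G0 ≤ ℵ₀) :
    ∃ G : Submodule ℚ (ℂ × ℂ), Good ω τ G ∧ G0 ≤ G ∧ (∀ c, ∃ v ∈ G, v.1 = c) ∧
      ∀ c, c ≠ 0 → ∃ v ∈ G, exp v.2 = c := by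
  classical
  obtain ⟨ι, _, _, e, he, hι⟩ := exists_index
  have hstep : ∀ (c : ℂ) (G : Submodule ℚ (ℂ × ℂ)), ∃ G' : Submodule ℚ (ℂ × ℂ),
      Good ω τ G → #G < 𝔠 → Good ω τ G' ∧ G ≤ G' ∧ #G' ≤ max #G ℵ₀ ∧
        (∃ v ∈ G', v.1 = c) ∧ (c ≠ 0 → ∃ v ∈ G', exp v.2 = c) := by
    intro c G
    by_cases h : Good ω τ G ∧ #G < 𝔠
    · obtain ⟨G', h'⟩ := h.1.task h.2 c
      exact ⟨G', fun _ _ => h'⟩
    · exact ⟨G, fun h1 h2 => absurd ⟨h1, h2⟩ h⟩
  choose nx hnx using hstep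
  let F : ι → Submodule ℚ (ℂ × ℂ) := (wellFounded_lt (α := ι)).fix fun i f =>
    nx (e i) (sSup (insert G0 {H | ∃ j, ∃ hj : j < i, f j hj = H}))
  let U : ι → Submodule ℚ (ℂ × ℂ) := fun i => sSup (insert G0 (F '' Iio i))
  have hF : ∀ i, F i = nx (e i) (U i) := by
    intro i
    have h1 : F i = nx (e i) (sSup (insert G0 {H | ∃ j, ∃ hj : j < i, F j = H})) :=
      WellFounded.fix_eq _ _ _
    rw [h1]
    congr 3
    ext H
    simp [mem_image]
  have key : ∀ i, Good ω τ (U i) ∧ #(U i) ≤ max #(Iio i) ℵ₀ := by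
    intro i
    induction i using WellFoundedLT.induction with
    | ind i ih =>
      have hcl : ∀ j : ι, max #(Iio j) ℵ₀ < 𝔠 := fun j =>
        max_lt (hι j) Cardinal.aleph0_lt_continuum
      have hj : ∀ j ∈ Iio i, Good ω τ (F j) ∧ U j ≤ F j ∧ #(F j) ≤ max #(Iio i) ℵ₀ := by
        intro j hj
        obtain ⟨h1, h2⟩ := ih j hj
        obtain ⟨h3, h4, h5, -, -⟩ := hnx (e j) (U j) h1 (h2.trans_lt (hcl j))
        rw [← hF j] at h3 h4 h5
        refine ⟨h3, h4, h5.trans ((max_aleph h2).trans ?_)⟩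
        exact max_le_max (Cardinal.mk_le_mk_of_subset (Iio_subset_Iio (le_of_lt hj))) le_rfl
      obtain ⟨h1, h2⟩ := chain_good h0 F (Iio i) (fun j hj' => ⟨(hj j hj').1, (hj j hj').2.1⟩)
      refine ⟨h2, ?_⟩
      have h3 : ((U i : Submodule ℚ (ℂ × ℂ)) : Set (ℂ × ℂ)) =
          (G0 : Set (ℂ × ℂ)) ∪ ⋃ j ∈ Iio i, (F j : Set (ℂ × ℂ)) := by
        ext v
        have := Submodule.mem_sSup_of_directed (z := v) ⟨G0, mem_insert _ _⟩ h1
        rw [SetLike.mem_coe, this]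
        constructor
        · rintro ⟨_, (rfl | ⟨j, hj, rfl⟩), hv⟩
          · exact Or.inl hv
          · exact Or.inr (mem_biUnion hj hv)
        · rintro (hv | hv)
          · exact ⟨G0, mem_insert _ _, hv⟩
          · obtain ⟨j, hj, hv⟩ := mem_iUnion₂.1 hv
            exact ⟨F j, mem_insert_of_mem _ ⟨j, hj, rfl⟩, hv⟩
      have h4 : #((U i : Submodule ℚ (ℂ × ℂ)) : Set (ℂ × ℂ)) ≤ max #(Iio i) ℵ₀ := by
        rw [h3]
        refine (Cardinal.mk_union_le _ _).trans ?_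
        have h5 : #(⋃ j ∈ Iio i, (F j : Set (ℂ × ℂ)) : Set (ℂ × ℂ)) ≤ max #(Iio i) ℵ₀ := by
          refine (Cardinal.mk_biUnion_le _ _).trans ?_
          have h6 : (⨆ x : Iio i, #((F x.1 : Set (ℂ × ℂ)))) ≤ max #(Iio i) ℵ₀ :=
            ciSup_le' fun x => (hj x.1 x.2).2.2
          refine (mul_le_mul' le_rfl h6).trans ?_
          refine (Cardinal.mul_le_max _ _).trans ?_
          simp
        refine (add_le_add (hc0.trans (le_max_right #(Iio i) ℵ₀)) h5).trans ?_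
        refine (Cardinal.add_le_max _ _).trans ?_
        simp
      exact h4
  have key2 : ∀ i, Good ω τ (F i) ∧ U i ≤ F i ∧ (∃ v ∈ F i, v.1 = e i) ∧
      (e i ≠ 0 → ∃ v ∈ F i, exp v.2 = e i) := by
    intro i
    obtain ⟨h1, h2⟩ := key i
    obtain ⟨h3, h4, -, h5, h6⟩ := hnx (e i) (U i) h1
      (h2.trans_lt (max_lt (hι i) Cardinal.aleph0_lt_continuum))
    rw [← hF i] at h3 h4 h5 h6
    exact ⟨h3, h4, h5, h6⟩
  obtain ⟨-, h2⟩ := chain_good h0 F univ (fun j _ => ⟨(key2 j).1, (key2 j).2.1⟩)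
  refine ⟨_, h2, le_sSup (mem_insert _ _), fun c => ?_, fun c hc => ?_⟩
  · obtain ⟨i, rfl⟩ := he c
    obtain ⟨v, hv, h3⟩ := (key2 i).2.2.1
    exact ⟨v, (le_sSup (mem_insert_of_mem _ (mem_image_of_mem F (mem_univ i)))) hv, h3⟩
  · obtain ⟨i, rfl⟩ := he c
    obtain ⟨v, hv, h3⟩ := (key2 i).2.2.2 hc
    exact ⟨v, (le_sSup (mem_insert_of_mem _ (mem_image_of_mem F (mem_univ i)))) hv, h3⟩


theorem exists_exp {ω : ℂ} {τ : ℝ} {G0 : Submodule ℚ (ℂ × ℂ)} (hG0 : Good ω τ G0)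
    (hc0 : #G0 ≤ ℵ₀) :
    ∃ E : ℂ → ℂ, (∀ z w, E (z + w) = E z * E w) ∧
      (∀ y, y ≠ 0 → ∃ z, E z = y) ∧ (∀ z, E z = 1 ↔ ∃ k : ℤ, z = (k : ℚ) • ω) ∧
      (∀ q : ℚ, E (q • ω) = exp (q • (2 * Real.pi * I))) ∧
      (∀ z, E (starRingEnd ℂ z) = starRingEnd ℂ (E z)) ∧ (∀ v ∈ G0, E v.1 = exp v.2) ∧
      ∀ (n : ℕ) (z : Fin n → ℂ), LinearIndependent ℚ z → ∃ d : ℕ∞, d ≤ 1 ∧
        (¬ ((1 : ℂ) ∈ Submodule.span ℚ (range z) ∧ ω ∈ Submodule.span ℚ (range z)) → d = 0) ∧
        (n : ℕ∞) ≤ Mt.eRk (range z ∪ range (fun i => E (z i))) + d := by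
  obtain ⟨G, hG, hle, hdom, hran⟩ := exists_total_ge hG0 hc0
  have hA : ∀ z : ℂ, ∃ m : ℂ, (z, m) ∈ G := by
    intro z
    obtain ⟨⟨a, m⟩, hv, rfl⟩ := hdom z
    exact ⟨m, hv⟩
  choose A hA using hA
  have hu : ∀ z m : ℂ, (z, m) ∈ G → A z = m := by
    intro z m h
    have h1 := G.sub_mem (hA z) h
    have h2 := hG.fn _ h1 (by simp)
    exact sub_eq_zero.1 h2
  have hAadd : ∀ z w, A (z + w) = A z + A w := fun z w => hu _ _ (G.add_mem (hA z) (hA w))
  have hAsmul : ∀ (q : ℚ) z, A (q • z) = q • A z := fun q z => hu _ _ (G.smul_mem q (hA z))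
  have hAω : A ω = 2 * Real.pi * I := hu _ _ hG.om
  refine ⟨fun z => exp (A z), ?_, ?_, ?_, ?_, ?_, ?_, ?_⟩
  · intro z w
    simp only [hAadd, exp_add]
  · intro y hy
    obtain ⟨⟨a, m⟩, hv, rfl⟩ := hran y hy
    exact ⟨a, by simp only [hu a m hv]⟩
  · intro z
    constructor
    · intro h
      exact hG.ker _ (hA z) h
    · rintro ⟨k, rfl⟩
      simp only [hAsmul, hAω]
      rw [Rat.smul_def, Rat.cast_intCast, exp_int_mul_two_pi_mul_I]
  · intro q
    simp only [hAsmul, hAω]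
  · intro z
    have h1 : A (starRingEnd ℂ z) = starRingEnd ℂ (A z) := hu _ _ (hG.cj _ (hA z))
    simp only [h1, exp_conj]
  · intro v hv
    have h1 : A v.1 = v.2 := hu _ _ (hle hv)
    simp only [h1]
  · intro n z hz
    set w : Fin n → ℂ × ℂ := fun i => (z i, A (z i)) with hw
    have hwli : LinearIndependent ℚ w := by
      refine LinearIndependent.of_comp (LinearMap.fst ℚ ℂ ℂ) ?_
      exact hz
    have hYG : Submodule.span ℚ (range w) ≤ G := by
      rw [Submodule.span_le]; rintro _ ⟨i, rfl⟩; exact hA (z i)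
    have hfin : FiniteDimensional ℚ (Submodule.span ℚ (range w)) :=
      FiniteDimensional.span_of_finite ℚ (Set.finite_range w)
    have h1 := hG.sch _ hYG hfin
    have h2 : Module.finrank ℚ (Submodule.span ℚ (range w)) = n := by
      rw [finrank_span_eq_card hwli, Fintype.card_fin]
    have hfst : ∀ v ∈ Submodule.span ℚ (range w), v.1 ∈ Submodule.span ℚ (range z) := by
      intro v hv
      have h3 := Submodule.mem_map_of_mem (f := LinearMap.fst ℚ ℂ ℂ) hv
      rw [Submodule.map_span, ← range_comp] at h3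
      exact h3
    refine ⟨dl ω (Submodule.span ℚ (range w)), dl_le_one _ _, fun hn => ?_, ?_⟩
    · unfold dl
      rw [if_neg]
      rintro ⟨⟨v, hv, hv1⟩, ⟨u, hu', hu1⟩⟩
      exact hn ⟨hv1 ▸ hfst v hv, hu1 ▸ hfst u hu'⟩
    · rw [h2] at h1
      refine h1.trans ?_
      gcongr
      rw [← Mt.eRk_closure_eq (range z ∪ range fun i => exp (A (z i)))]
      apply Mt.eRk_mono
      have hsub : range z ∪ (range fun i => exp (A (z i))) ⊆
          Mt.closure (range z ∪ range fun i => exp (A (z i))) := Mt.subset_closure _ (by simp)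
      have h4 : ∀ v ∈ Submodule.span ℚ (range w),
          v.1 ∈ Mt.closure (range z ∪ range fun i => exp (A (z i))) ∧
          exp v.2 ∈ Mt.closure (range z ∪ range fun i => exp (A (z i))) := by
        intro v hv
        induction hv using Submodule.span_induction with
        | mem v hv =>
          obtain ⟨i, rfl⟩ := hv
          exact ⟨hsub (Or.inl ⟨i, rfl⟩), hsub (Or.inr ⟨i, rfl⟩)⟩
        | zero =>
          have h5 := cl_rat (S := range z ∪ range fun i => exp (A (z i))) 0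
          have h6 := cl_rat (S := range z ∪ range fun i => exp (A (z i))) 1
          rw [Rat.cast_zero] at h5
          rw [Rat.cast_one] at h6
          exact ⟨h5, by rw [Prod.snd_zero, exp_zero]; exact h6⟩
        | add u v _ _ h5 h6 =>
          exact ⟨cl_add h5.1 h6.1, by rw [Prod.snd_add, exp_add]; exact cl_mul h5.2 h6.2⟩
        | smul q v _ h5 => exact ⟨smul_mem q h5.1, exp_smul_mem q h5.2⟩
      rintro t ⟨v, hv, rfl | rfl⟩
      · exact (h4 v hv).1
      · exact (h4 v hv).2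


theorem exists_restrictedExp {p : ℝ} {τ : ℝ} {G0 : Submodule ℚ (ℂ × ℂ)}
    (hG0 : Good (2 * p * I) τ G0) (hc0 : #G0 ≤ ℵ₀) :
    ∃ E : ℂ → ℂ, RestrictedExp p E ∧ ∀ v ∈ G0, E v.1 = exp v.2 := by
  obtain ⟨E, hadd, hsurj, hker, hq, hconj, h1, hsch⟩ := exists_exp hG0 hc0
  refine ⟨E, ⟨hadd, hsurj, fun z => ?_, fun q => ?_, hconj, fun n z hz => ?_, fun n z hz hc => ?_⟩,
    h1⟩
  · rw [hker z]
    refine exists_congr fun k => ?_
    rw [Rat.smul_def, Rat.cast_intCast]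
  · have h3 := hq q
    rw [Rat.smul_def, Rat.smul_def] at h3
    rw [h3]
    congr 1
    ring
  · obtain ⟨d, hd1, hd0, h3⟩ := hsch n z hz
    have h5 : ((n - 1 : ℕ) : ℕ∞) ≤ Mt.eRk (Set.range z ∪ Set.range (fun i => E (z i))) := by
      have h6 : (n : ℕ∞) ≤ Mt.eRk (Set.range z ∪ Set.range (fun i => E (z i))) + 1 :=
        h3.trans (by gcongr)
      push_cast
      exact tsub_le_iff_right.2 h6
    have h7 := le_trdeg h5
    calc (n : Cardinal.{0}) ≤ ((n - 1 + 1 : ℕ) : Cardinal.{0}) := by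
          exact_mod_cast (by omega : n ≤ n - 1 + 1)
      _ = ((n - 1 : ℕ) : Cardinal.{0}) + 1 := by push_cast; rfl
      _ ≤ _ := by gcongr
  · obtain ⟨d, hd1, hd0, h3⟩ := hsch n z hz
    rw [hd0 hc, add_zero] at h3
    exact le_trdeg h3

end Pool.Agent.Helper77.PE
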